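import Pool.Agent.helper62.RS.SpecT

/-!
# Row rs:TH4 (MP_07c750_an, rare scars): the three lines argument
-/

set_option autoImplicit false

open MeasureTheory Filter Set

namespace Pool.Agent.RS

/-- second order Taylor lower bound on the real axis -/
theorem TH4_taylor (F F1 F2 : ℂ → ℂ) (h1 : ∀ ζ, HasDerivAt F (F1 ζ) ζ) (h2 : ∀ ζ, HasDerivAt F1 (F2 ζ) ζ)
    (x M : ℝ) (hx : 0 ≤ x) (hM : ∀ t : ℝ, 0 ≤ t → t ≤ x → ‖F2 t‖ ≤ M) :
    (F 0).re + x * (F1 0).re - M * x ^ 2 / 2 ≤ (F x).re := by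
  have hF : ∀ t : ℝ, HasDerivAt (fun t : ℝ => (F t).re) (F1 t).re t := fun t => (h1 t).real_of_complex
  have hF1 : ∀ t : ℝ, HasDerivAt (fun t : ℝ => (F1 t).re) (F2 t).re t := fun t => (h2 t).real_of_complex
  -- the first derivative
  have hA : ∀ t : ℝ, 0 ≤ t → t ≤ x → (F1 0).re - M * t ≤ (F1 t).re := by
    intro t ht0 htx
    have hd : ∀ s : ℝ, HasDerivAt (fun s : ℝ => (F1 s).re + M * s) ((F2 s).re + M * 1) s := fun s =>
      (hF1 s).add ((hasDerivAt_id s).const_mul M)
    have hmono : MonotoneOn (fun s : ℝ => (F1 s).re + M * s) (Icc 0 t) := by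
      apply monotoneOn_of_deriv_nonneg (convex_Icc 0 t)
      · exact fun s _ => (hd s).continuousAt.continuousWithinAt
      · exact fun s _ => (hd s).differentiableAt.differentiableWithinAt
      · intro s hs
        rw [interior_Icc] at hs
        rw [(hd s).deriv]
        have h3 := hM s hs.1.le (hs.2.le.trans htx)
        have h4 := (abs_le.mp (Complex.abs_re_le_norm (F2 s))).1
        linarith
    have h5 := hmono (left_mem_Icc.mpr ht0) (right_mem_Icc.mpr ht0) ht0
    simp only [mul_zero, add_zero, Complex.ofReal_zero] at h5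
    linarith
  have hd : ∀ s : ℝ, HasDerivAt (fun s : ℝ => (F s).re - (F1 0).re * s + M / 2 * s ^ 2)
      ((F1 s).re - (F1 0).re * 1 + M / 2 * (((2 : ℕ) : ℝ) * s ^ (2 - 1) * 1)) s := fun s =>
    ((hF s).sub ((hasDerivAt_id s).const_mul _)).add (((hasDerivAt_id s).pow 2).const_mul _)
  have hmono : MonotoneOn (fun s : ℝ => (F s).re - (F1 0).re * s + M / 2 * s ^ 2) (Icc 0 x) := by
    apply monotoneOn_of_deriv_nonneg (convex_Icc 0 x)
    · exact fun s _ => (hd s).continuousAt.continuousWithinAt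
    · exact fun s _ => (hd s).differentiableAt.differentiableWithinAt
    · intro s hs
      rw [interior_Icc] at hs
      rw [(hd s).deriv]
      have h3 := hA s hs.1.le hs.2.le
      have h4 : M / 2 * (((2 : ℕ) : ℝ) * s ^ (2 - 1) * 1) = M * s := by
        norm_num
        ring
      rw [h4]
      linarith
  have h5 := hmono (left_mem_Icc.mpr hx) (right_mem_Icc.mpr hx) hx
  simp only [mul_zero, sub_zero, Complex.ofReal_zero, ne_eq, OfNat.ofNat_ne_zero, not_false_eq_true, zero_pow,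
    add_zero] at h5
  linarith

theorem TH4 (hTH1 : TH1_stmt) (hTH2 : TH2_stmt) (hTH3 : TH3_stmt) : TH4_stmt := by
  intro X _ μ _ N K a b A κ k₀ Φ L hTD hBM hL hN hk0 hμ x hx0 hx1
  obtain ⟨F1, F2, hd1, hd2, hF1, hF2, hbd⟩ := hTH1 X μ N K a b A κ k₀ Φ hTD hBM
  obtain ⟨hline0, hval0, hval1, hval2⟩ := hTH2 X μ N K a b A κ k₀ Φ L F1 F2 hTD hBM hL hF1 hF2
  have hline1 := hTH3 X μ N K a b A κ k₀ Φ hTD hBM
  have hκ : 0 < κ := hTD.posκ
  have hN' : (0 : ℝ) < N := by exact_mod_cast hN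
  set Z : ℝ := ∫ x, Real.exp (Φ x) ∂μ with hZdef
  -- positivity of `Z`
  have hZ : 0 < Z := by
    have hint : Integrable (fun x => Real.exp (Φ x)) μ := by
      refine Integrable.of_bound (C := Real.exp L) ?_ ?_
      · exact (Real.measurable_exp.comp hBM.1).aestronglyMeasurable
      · refine Eventually.of_forall fun y => ?_
        rw [Real.norm_eq_abs, abs_of_pos (Real.exp_pos _)]
        exact Real.exp_le_exp.mpr ((le_abs_self _).trans (hL y))
    have h1 : ∫ _x, Real.exp (-L) ∂μ ≤ Z := by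
      apply integral_mono (integrable_const _) hint
      intro y
      exact Real.exp_le_exp.mpr (by have := (abs_le.mp (hL y)).1; linarith)
    have h2 : ∫ _x, Real.exp (-L) ∂μ = (μ Set.univ).toReal * Real.exp (-L) := by
      rw [integral_const, smul_eq_mul]
      rfl
    rw [h2] at h1
    exact lt_of_lt_of_le (mul_pos hμ (Real.exp_pos _)) h1
  set S : ℝ := ∑ j, A j ^ 2 with hS
  set D : ℝ := ∑ j, A j * ((∫ x, Φ x * ‖a j x‖ ^ 2 ∂μ) + ∫ x, Φ x * ‖b j x‖ ^ 2 ∂μ) with hD
  -- the lower bound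
  have hlow : κ ^ 2 * S + x * (κ * D) - (N * κ ^ 2 * (4 * L ^ 2 * Real.exp (2 * x * L))) * x ^ 2 / 2 ≤
      ‖TF μ K a b Φ x‖ := by
    have h1 := TH4_taylor (TF μ K a b Φ) F1 F2 hd1 hd2 x (N * κ ^ 2 * (4 * L ^ 2 * Real.exp (2 * x * L))) hx0 (by
      intro t ht0 htx
      refine (hval2 t ht0).trans ?_
      have hL0 : 0 ≤ L := by
        by_contra hneg
        have hemp : IsEmpty X := ⟨fun y => hneg ((abs_nonneg _).trans (hL y))⟩
        have : μ Set.univ = 0 := by
          rw [Set.univ_eq_empty_iff.mpr hemp, measure_empty]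
        rw [this] at hμ
        simp at hμ
      have h3 : Real.exp (2 * t * L) ≤ Real.exp (2 * x * L) :=
        Real.exp_le_exp.mpr (by nlinarith)
      have h4 : 0 ≤ (N : ℝ) * κ ^ 2 := by positivity
      have h5 : 4 * L ^ 2 * Real.exp (2 * t * L) ≤ 4 * L ^ 2 * Real.exp (2 * x * L) :=
        mul_le_mul_of_nonneg_left h3 (by positivity)
      exact mul_le_mul_of_nonneg_left h5 h4)
    rw [hval0, hval1, Complex.ofReal_re, Complex.ofReal_re] at h1
    exact h1.trans (Complex.re_le_norm _)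
  -- the upper bound
  have hup : ‖TF μ K a b Φ x‖ ≤ (N * κ ^ 2) ^ (1 - 2 * x) * (Real.sqrt N * κ * k₀ * Z) ^ (2 * x) := by
    have hcont : Differentiable ℂ (TF μ K a b Φ) := fun ζ => (hd1 ζ).differentiableAt
    have h1 := Complex.HadamardThreeLines.norm_le_interp_of_mem_verticalClosedStrip' (l := 0) (u := 1 / 2) (by norm_num)
      (f := TF μ K a b Φ) (z := (x : ℂ)) (a := N * κ ^ 2) (b := Real.sqrt N * κ * k₀ * Z)
      (by
        change (x : ℂ).re ∈ Icc (0 : ℝ) (1 / 2)
        rw [Complex.ofReal_re]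
        exact ⟨hx0, hx1⟩)
      hcont.diffContOnCl
      (by
        obtain ⟨m, hm⟩ := hbd (1 / 2)
        refine ⟨m, ?_⟩
        rintro _ ⟨ζ, hζ, rfl⟩
        have h2 : ζ.re ∈ Icc (0 : ℝ) (1 / 2) := hζ
        exact hm ζ (abs_le.mpr ⟨by linarith [h2.1], h2.2⟩))
      (by
        intro ζ hζ
        exact hline0 ζ hζ)
      (by
        intro ζ hζ
        exact hline1 ζ hζ)
    rw [Complex.ofReal_re] at h1
    have h3 : (x - 0) / (1 / 2 - 0) = 2 * x := by ring
    rwa [h3] at h1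
  have hexp : (N * κ ^ 2) ^ (1 - 2 * x) * (Real.sqrt N * κ * k₀ * Z) ^ (2 * x) =
      (N * κ ^ 2) * Real.exp (x * (2 * Real.log (k₀ / κ) + 2 * Real.log Z - Real.log N)) := by
    have hb : 0 < N * κ ^ 2 := by positivity
    have hs : 0 < Real.sqrt N := Real.sqrt_pos.mpr hN'
    have hc : 0 < Real.sqrt N * κ * k₀ * Z := by positivity
    rw [Real.rpow_def_of_pos hb, Real.rpow_def_of_pos hc, ← Real.exp_add]
    have h1 : Real.log (Real.sqrt N * κ * k₀ * Z) = Real.log N / 2 + Real.log κ + Real.log k₀ + Real.log Z := by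
      rw [Real.log_mul (by positivity) hZ.ne', Real.log_mul (by positivity) hk0.ne', Real.log_mul hs.ne' hκ.ne',
        Real.log_sqrt hN'.le]
    have h2 : Real.log (N * κ ^ 2) = Real.log N + 2 * Real.log κ := by
      rw [Real.log_mul hN'.ne' (by positivity), Real.log_pow]
      push_cast
      ring
    have h3 : Real.log (k₀ / κ) = Real.log k₀ - Real.log κ := Real.log_div hk0.ne' hκ.ne'
    have h4 : (N : ℝ) * κ ^ 2 = Real.exp (Real.log N + 2 * Real.log κ) := by rw [← h2, Real.exp_log hb]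
    rw [h1, h2, h3]
    conv_rhs => rw [h4]
    rw [← Real.exp_add]
    congr 1
    ring
  have hfin := hlow.trans hup
  rw [hexp] at hfin
  have hb : 0 < N * κ ^ 2 := by positivity
  have h6 : S / N + x * (D / (N * κ)) - 2 * L ^ 2 * Real.exp (2 * x * L) * x ^ 2 =
      (κ ^ 2 * S + x * (κ * D) - (N * κ ^ 2 * (4 * L ^ 2 * Real.exp (2 * x * L))) * x ^ 2 / 2) / (N * κ ^ 2) := by
    field_simp
    ring
  rw [h6, div_le_iff₀ hb]
  linarith

end Pool.Agent.RS
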